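import Pool.Agent.Lib.MP_3a6b94_an.Main

open MeasureTheory Set Metric Filter Topology
open scoped ENNReal

namespace Pool.Agent.Results.MP_3a6b94_an.Complete

open Pool.Agent.Lib.MP_3a6b94_an

/-- The polynomials are complete in the weighted Bergman space for every finite exponent. -/
theorem result (Ω : Set ℂ) (hΩ : IsOpen Ω) (_hsc : IsSimplyConnected Ω)
    (hb : Bornology.IsBounded Ω) (φ : ℂ → ℂ) (hφ : DifferentiableOn ℂ φ Ω)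
    (hbij : BijOn φ Ω (ball 0 1)) (W : ℝ → ℝ) (hWpos : ∀ t ∈ Ioc (0 : ℝ) 1, 0 < W t)
    (_hWbdd : BddAbove (W '' Ioc 0 1)) (hWmono : MonotoneOn W (Ioc 0 1))
    (_hW0 : Tendsto W (𝓝[>] 0) (𝓝 0))
    (hdiv : ∃ c ∈ Ioc (0 : ℝ) 1, W c < 1 ∧
      ∫⁻ t in Ioo 0 c, ENNReal.ofReal (Real.log (Real.log (1 / W t))) = ⊤)
    (a : ℂ) (ha : a ∈ Ω) (ω : Measure ℂ) (hω : IsHarmonicMeasure Ω a ω)
    (hpos : 0 < ω (frontier (outerComp Ω))) (p : ℝ≥0∞) [Fact (1 ≤ p)] (hp : p ≠ ⊤) :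
    closure {F : Lp ℂ p (wMeas Ω φ W) | ∃ P : Polynomial ℂ, F =ᵐ[wMeas Ω φ W] fun z => P.eval z} =
      {F : Lp ℂ p (wMeas Ω φ W) | ∃ f : ℂ → ℂ, DifferentiableOn ℂ f Ω ∧ F =ᵐ[wMeas Ω φ W] f} :=
  complete hΩ hb hφ hbij hWpos hWmono hdiv ha hω hpos p hp

end Pool.Agent.Results.MP_3a6b94_an.Complete
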